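import Pool.Agent.H97.SHL.Targets

namespace Pool.Agent.H97.SHL

open Finset

lemma eA_insert {m : ℕ} (q : ℕ) (B M : Finset (Fin m)) (i : Fin m) (hi : i ∉ M)
    (y : Fin m → Fin q) :
    eA q B M y + eA q B (insert i M) y = eA q (insert i B) M y := by
  have h1 : eA q B (insert i M) y =
      ∑ L ∈ M.powerset, (-1 : ℝ) ^ ((insert i M) \ L).card * fA q (B ∪ L) y +
      ∑ L ∈ M.powerset, (-1 : ℝ) ^ ((insert i M) \ (insert i L)).card *
        fA q (B ∪ insert i L) y := by
    unfold eA
    rw [Finset.sum_powerset_insert hi]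
  rw [h1]
  unfold eA
  rw [← add_assoc, ← Finset.sum_add_distrib]
  have h2 : ∑ L ∈ M.powerset, ((-1 : ℝ) ^ (M \ L).card * fA q (B ∪ L) y +
      (-1 : ℝ) ^ ((insert i M) \ L).card * fA q (B ∪ L) y) = 0 := by
    apply Finset.sum_eq_zero
    intro L hL
    have hL' : L ⊆ M := Finset.mem_powerset.mp hL
    have hiL : i ∉ L := fun h => hi (hL' h)
    have h3 : (insert i M) \ L = insert i (M \ L) := Finset.insert_sdiff_of_notMem M hiL
    have h4 : i ∉ M \ L := fun h => hi (Finset.mem_sdiff.mp h).1
    rw [h3, Finset.card_insert_of_notMem h4, pow_succ]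
    ring
  rw [h2, zero_add]
  apply Finset.sum_congr rfl
  intro L hL
  have h5 : (insert i M) \ (insert i L) = M \ L := by
    ext x
    simp only [Finset.mem_sdiff, Finset.mem_insert, not_or]
    constructor
    · rintro ⟨h | h, h', h''⟩
      · exact absurd h h'
      · exact ⟨h, h''⟩
    · rintro ⟨h, h'⟩
      refine ⟨Or.inr h, ?_, h'⟩
      rintro rfl
      exact hi h
  have h6 : B ∪ insert i L = insert i B ∪ L := by
    ext x
    simp only [Finset.mem_union, Finset.mem_insert]
    tauto
  rw [h5, h6]

lemma eA_group {m : ℕ} (q : ℕ) (y : Fin m → Fin q) (A : Finset (Fin m)) :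
    ∀ B M : Finset (Fin m), Disjoint A M →
      ∑ M' ∈ A.powerset, eA q B (M' ∪ M) y = eA q (B ∪ A) M y := by
  induction A using Finset.induction_on with
  | empty =>
    intro B M _
    simp
  | insert i A hi ih =>
    intro B M hd
    have hdA : Disjoint A M := Finset.disjoint_of_subset_left (Finset.subset_insert i A) hd
    have hiM : i ∉ M := by
      have := Finset.disjoint_left.mp hd
      exact this (Finset.mem_insert_self i A)
    rw [Finset.sum_powerset_insert hi, ← Finset.sum_add_distrib]
    have h1 : ∑ M' ∈ A.powerset, (eA q B (M' ∪ M) y + eA q B (insert i M' ∪ M) y) =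
        ∑ M' ∈ A.powerset, eA q (insert i B) (M' ∪ M) y := by
      apply Finset.sum_congr rfl
      intro M' hM'
      have hM'' : M' ⊆ A := Finset.mem_powerset.mp hM'
      have h2 : i ∉ M' ∪ M := by
        intro h
        rcases Finset.mem_union.mp h with h | h
        · exact hi (hM'' h)
        · exact hiM h
      have h3 : insert i M' ∪ M = insert i (M' ∪ M) := Finset.insert_union i M' M
      rw [h3]
      exact eA_insert q B (M' ∪ M) i h2 y
    rw [h1, ih (insert i B) M hdA]
    have h4 : insert i B ∪ A = B ∪ insert i A := by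
      ext x
      simp only [Finset.mem_union, Finset.mem_insert]
      tauto
    rw [h4]

theorem pf_AL3 : T_AL3 := by
  intro m q A M hd y
  have h := eA_group q y A ∅ M hd
  rw [Finset.empty_union] at h
  exact h

end Pool.Agent.H97.SHL
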